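import Pool.Agent.Y851.DK.Stm
import Pool.Agent.Y959.Sv.Up
import Pool.Agent.Helper923.HMertens

/-! Project DK, job DK-SV: an upper bound sieve for the number of simultaneous prime values of linear
forms, uniform in the forms, with the exact order of magnitude (an adaptation of Y827/HD/Ubs). -/

set_option autoImplicit false

namespace Pool.Agent.Y949.DK

open Finset Filter Topology
open Pool.Agent.Y959.Sv (nu up_sieve)
open Pool.Agent.Helper923.HMertens (mertens_ratio)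
open Pool.Agent.Y851.DK

/-- `p` divides one of the values of the forms at `n` -/
def Qf (F : Finset (ℤ × ℤ)) (p n : ℕ) : Prop := ∃ f ∈ F, (p : ℤ) ∣ f.1 * (n : ℤ) + f.2

theorem Qf_per (F : Finset (ℤ × ℤ)) (p n : ℕ) : Qf F p n ↔ Qf F p (n % p) := by
  unfold Qf
  apply exists_congr
  intro f
  have e : f.1 * (n : ℤ) + f.2 = (f.1 * ((n % p : ℕ) : ℤ) + f.2) + p * (f.1 * ((n / p : ℕ) : ℤ)) := by
    have h : ((n % p : ℕ) : ℤ) + p * ((n / p : ℕ) : ℤ) = n := by exact_mod_cast Nat.mod_add_div n p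
    rw [← h]
    ring
  rw [e, dvd_add_left (Dvd.intro _ rfl)]

theorem nu_eq (F : Finset (ℤ × ℤ)) {p : ℕ} (hp : p.Prime) (h1 : ∀ f ∈ F, ¬ (p : ℤ) ∣ f.1)
    (h2 : ∀ f ∈ F, ∀ g ∈ F, f ≠ g → ¬ (p : ℤ) ∣ f.1 * g.2 - g.1 * f.2) :
    nu (Qf F) p = F.card := by
  classical
  have : Fact p.Prime := ⟨hp⟩
  have hd : ∀ x : ℤ, (p : ℤ) ∣ x ↔ (x : ZMod p) = 0 := fun x => (ZMod.intCast_zmod_eq_zero_iff_dvd x p).symm
  have h10 : ∀ f ∈ F, (f.1 : ZMod p) ≠ 0 := fun f hf h => h1 f hf ((hd _).2 h)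
  unfold nu
  symm
  apply card_bij (fun f _ => (-(f.2 : ZMod p) / (f.1 : ZMod p)).val)
  · intro f hf
    rw [mem_filter, mem_range]
    refine ⟨ZMod.val_lt _, f, hf, ?_⟩
    rw [hd]
    push_cast
    rw [ZMod.natCast_zmod_val, mul_div_cancel₀ _ (h10 f hf)]
    ring
  · intro f hf g hg h
    by_contra hne
    have h3 := ZMod.val_injective p h
    rw [div_eq_div_iff (h10 f hf) (h10 g hg)] at h3
    apply h2 f hf g hg hne
    rw [hd]
    push_cast
    linear_combination h3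
  · intro n hn
    rw [mem_filter, mem_range] at hn
    obtain ⟨hn1, f, hf, hfd⟩ := hn
    refine ⟨f, hf, ?_⟩
    rw [hd] at hfd
    push_cast at hfd
    have h3 : (n : ZMod p) = -(f.2 : ZMod p) / (f.1 : ZMod p) := by
      rw [eq_div_iff (h10 f hf)]
      linear_combination hfd
    rw [← h3, ZMod.val_natCast_of_lt hn1]

open Classical in
/-- the exceptional primes -/
noncomputable def Exc (F : Finset (ℤ × ℤ)) (S : Finset ℕ) : Finset ℕ :=
  S.filter (fun p : ℕ => (∃ f ∈ F, (p : ℤ) ∣ f.1) ∨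
    ∃ f ∈ F, ∃ g ∈ F, f ≠ g ∧ (p : ℤ) ∣ f.1 * g.2 - g.1 * f.2)

theorem sg_nonneg (m : ℕ) : 0 ≤ sg m := by
  unfold sg
  exact sum_nonneg fun p _ => by positivity

theorem sum_biUnion_le' {ι : Type*} [DecidableEq ι] (s : Finset ι) (t : ι → Finset ℕ) (f : ℕ → ℝ)
    (hf : ∀ p, 0 ≤ f p) : ∑ p ∈ s.biUnion t, f p ≤ ∑ i ∈ s, ∑ p ∈ t i, f p := by
  induction s using Finset.induction_on with
  | empty => simp
  | insert a s ha ih =>
    rw [biUnion_insert, sum_insert ha]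
    have h1 := sum_union_inter (s₁ := t a) (s₂ := s.biUnion t) (f := f)
    have h2 : 0 ≤ ∑ p ∈ t a ∩ s.biUnion t, f p := sum_nonneg fun p _ => hf p
    linarith

open Classical in
/-- the sum over the exceptional primes -/
theorem Exc_sum (F : Finset (ℤ × ℤ)) (S : Finset ℕ) (hS : ∀ p ∈ S, p.Prime)
    (hF : ∀ f ∈ F, f.1 ≠ 0) (hFg : ∀ f ∈ F, ∀ g ∈ F, f ≠ g → f.1 * g.2 - g.1 * f.2 ≠ 0) :
    ∑ p ∈ Exc F S, (1 : ℝ) / p ≤
      ∑ f ∈ F, sg f.1.natAbs + ∑ f ∈ F, ∑ g ∈ F, sg (f.1 * g.2 - g.1 * f.2).natAbs := by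
  have hsub : Exc F S ⊆ (F.biUnion fun f => f.1.natAbs.primeFactors) ∪
      (F.biUnion fun f => F.biUnion fun g => (f.1 * g.2 - g.1 * f.2).natAbs.primeFactors) := by
    intro p hp
    unfold Exc at hp
    rw [mem_filter] at hp
    rw [mem_union, mem_biUnion, mem_biUnion]
    rcases hp.2 with ⟨f, hf, h⟩ | ⟨f, hf, g, hg, hne, h⟩
    · refine Or.inl ⟨f, hf, ?_⟩
      rw [Nat.mem_primeFactors]
      exact ⟨hS p hp.1, Int.natCast_dvd.1 h, Int.natAbs_ne_zero.2 (hF f hf)⟩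
    · refine Or.inr ⟨f, hf, ?_⟩
      rw [mem_biUnion]
      refine ⟨g, hg, ?_⟩
      rw [Nat.mem_primeFactors]
      exact ⟨hS p hp.1, Int.natCast_dvd.1 h, Int.natAbs_ne_zero.2 (hFg f hf g hg hne)⟩
  have hpos : ∀ p : ℕ, (0 : ℝ) ≤ 1 / p := fun p => by positivity
  refine (sum_le_sum_of_subset_of_nonneg hsub fun p _ _ => hpos p).trans ?_
  have h1 := sum_union_inter (s₁ := F.biUnion fun f => f.1.natAbs.primeFactors)
    (s₂ := F.biUnion fun f => F.biUnion fun g => (f.1 * g.2 - g.1 * f.2).natAbs.primeFactors)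
    (f := fun p : ℕ => (1 : ℝ) / p)
  have h2 : 0 ≤ ∑ p ∈ (F.biUnion fun f => f.1.natAbs.primeFactors) ∩
      (F.biUnion fun f => F.biUnion fun g => (f.1 * g.2 - g.1 * f.2).natAbs.primeFactors),
      (1 : ℝ) / p := sum_nonneg fun p _ => hpos p
  have h3 := sum_biUnion_le' F (fun f => f.1.natAbs.primeFactors) (fun p => (1 : ℝ) / p) hpos
  have h4 := sum_biUnion_le' F
    (fun f => F.biUnion fun g => (f.1 * g.2 - g.1 * f.2).natAbs.primeFactors)
    (fun p => (1 : ℝ) / p) hpos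
  have h5 : ∑ f ∈ F, ∑ p ∈ (F.biUnion fun g => (f.1 * g.2 - g.1 * f.2).natAbs.primeFactors),
      (1 : ℝ) / p ≤ ∑ f ∈ F, ∑ g ∈ F, sg (f.1 * g.2 - g.1 * f.2).natAbs :=
    sum_le_sum fun f _ => sum_biUnion_le' F
      (fun g => (f.1 * g.2 - g.1 * f.2).natAbs.primeFactors) (fun p => (1 : ℝ) / p) hpos
  have h6 : ∑ f ∈ F, ∑ p ∈ f.1.natAbs.primeFactors, (1 : ℝ) / p = ∑ f ∈ F, sg f.1.natAbs := rfl
  linarith

theorem prodP {C1 : ℝ} (hC0 : 0 ≤ C1) (hC1 : ∀ a b : ℕ, 2 ≤ a → a ≤ b →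
    |∑ p ∈ (Ioc a b).filter Nat.Prime, (1 : ℝ) / p
      - Real.log (Real.log b / Real.log a)| ≤ C1 / Real.log a) (r L y : ℕ) (hL : 2 ≤ L)
    (hrL : r ≤ L) (hLy : L ≤ y) (E : Finset ℕ) (hE : E ⊆ (Ioc L y).filter Nat.Prime) (c : ℝ)
    (hEc : ∑ p ∈ E, (1 : ℝ) / p ≤ c) :
    ∏ p ∈ (Ioc L y).filter Nat.Prime \ E, (1 - (r : ℝ) / p) ≤
      Real.exp (r * (2 * C1 + c)) * (Real.log L / Real.log y) ^ r := by
  have hLr : (2 : ℝ) ≤ L := by exact_mod_cast hL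
  have hLyr : (L : ℝ) ≤ y := by exact_mod_cast hLy
  have hlogL : 1 / 2 ≤ Real.log L := by
    have h1 := Real.log_two_gt_d9
    have h2 := Real.log_le_log (by norm_num) hLr
    linarith
  have hlogy : 1 / 2 ≤ Real.log y := hlogL.trans (Real.log_le_log (by linarith) hLyr)
  have h1 : ∏ p ∈ (Ioc L y).filter Nat.Prime \ E, (1 - (r : ℝ) / p) ≤
      ∏ p ∈ (Ioc L y).filter Nat.Prime \ E, Real.exp (-(r : ℝ) * (1 / p)) := by
    apply Finset.prod_le_prod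
    · intro p hp
      rw [Finset.mem_sdiff, mem_filter, mem_Ioc] at hp
      have hp0 : (0 : ℝ) < p := by exact_mod_cast hp.1.2.pos
      have h5 : (r : ℝ) / p ≤ 1 := by
        rw [div_le_one hp0]
        exact_mod_cast hrL.trans hp.1.1.1.le
      linarith
    · intro p _
      have := Real.add_one_le_exp (-((r : ℝ) / p))
      have e : -(r : ℝ) * (1 / p) = -((r : ℝ) / p) := by ring
      rw [e]
      linarith
  refine h1.trans ?_
  rw [← Real.exp_sum, ← mul_sum]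
  have h2 := hC1 L y hL hLy
  have h3 := (abs_le.1 h2).1
  have h4 : C1 / Real.log L ≤ 2 * C1 := by
    rw [div_le_iff₀ (by linarith)]
    nlinarith
  have h6 : ∑ p ∈ (Ioc L y).filter Nat.Prime \ E, (1 : ℝ) / p =
      ∑ p ∈ (Ioc L y).filter Nat.Prime, (1 : ℝ) / p - ∑ p ∈ E, (1 : ℝ) / p := by
    rw [← sum_sdiff hE]
    ring
  have h7 : Real.log (Real.log y / Real.log L) - (2 * C1 + c) ≤
      ∑ p ∈ (Ioc L y).filter Nat.Prime \ E, (1 : ℝ) / p := by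
    rw [h6]
    linarith
  have hr0 : (0 : ℝ) ≤ r := Nat.cast_nonneg r
  calc Real.exp (-(r : ℝ) * ∑ p ∈ (Ioc L y).filter Nat.Prime \ E, (1 : ℝ) / p)
      ≤ Real.exp (r * (2 * C1 + c) + r * Real.log (Real.log L / Real.log y)) := by
        apply Real.exp_le_exp.2
        have h8 : Real.log (Real.log y / Real.log L) = -Real.log (Real.log L / Real.log y) := by
          rw [← Real.log_inv, inv_div]
        rw [h8] at h7
        nlinarith [mul_le_mul_of_nonneg_left h7 hr0]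
    _ = _ := by
        rw [Real.exp_add, ← Real.log_pow, Real.exp_log (by positivity)]

theorem small_card (a b : ℤ) (ha : a ≠ 0) (N y : ℕ) :
    (((Icc 1 N).filter (fun n : ℕ => |a * (n : ℤ) + b| ≤ y)).card : ℝ) ≤ 2 * y + 1 := by
  have h : ((Icc 1 N).filter (fun n : ℕ => |a * (n : ℤ) + b| ≤ y)).card ≤ (Icc (-(y : ℤ)) y).card := by
    apply card_le_card_of_injOn (fun n : ℕ => a * (n : ℤ) + b)
    · intro n hn
      rw [mem_coe, mem_filter] at hn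
      rw [mem_coe, mem_Icc]
      exact abs_le.1 hn.2
    · intro n _ n' _ h
      have h1 : a * (n : ℤ) + b = a * (n' : ℤ) + b := h
      have h2 : a * ((n : ℤ) - n') = 0 := by linear_combination h1
      rcases mul_eq_zero.1 h2 with h3 | h3
      · exact absurd h3 ha
      · omega
  have h1 : (Icc (-(y : ℤ)) y).card = 2 * y + 1 := by
    rw [Int.card_Icc]
    omega
  rw [h1] at h
  exact_mod_cast h

open Classical in
theorem step (K z0 r : ℕ) (hup : ∀ y X : ℕ, 3 ≤ y → y ^ K ≤ X →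
    ∀ Q : ℕ → ℕ → Prop, (∀ p n, Q p n ↔ Q p (n % p)) →
    ∀ P : Finset ℕ, (∀ p ∈ P, p.Prime ∧ z0 < p ∧ p ≤ y ∧ nu Q p ≤ r) →
    (((Icc 1 X).filter (fun n : ℕ => ∀ p ∈ P, ¬ Q p n)).card : ℝ) ≤
      2 * (X * ∏ p ∈ P, (1 - (nu Q p : ℝ) / p)) + √(X : ℝ))
    {C1 : ℝ} (hC0 : 0 ≤ C1) (hC1 : ∀ a b : ℕ, 2 ≤ a → a ≤ b →
    |∑ p ∈ (Ioc a b).filter Nat.Prime, (1 : ℝ) / p
      - Real.log (Real.log b / Real.log a)| ≤ C1 / Real.log a)
    (N L y : ℕ) (F : Finset (ℤ × ℤ)) (hF : ∀ f ∈ F, f.1 ≠ 0)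
    (hFg : ∀ f ∈ F, ∀ g ∈ F, f ≠ g → f.1 * g.2 - g.1 * f.2 ≠ 0) (hFr : F.card = r)
    (hL : 2 ≤ L) (hrL : r ≤ L) (hzL : z0 ≤ L) (hLy : L ≤ y) (hy3 : 3 ≤ y) (hyK : y ^ K ≤ N) (σ : ℝ)
    (hσ : ∑ f ∈ F, sg f.1.natAbs + ∑ f ∈ F, ∑ g ∈ F, sg (f.1 * g.2 - g.1 * f.2).natAbs ≤ σ) :
    (((Icc 1 N).filter (fun n : ℕ => ∀ f ∈ F, (f.1 * (n : ℤ) + f.2).toNat.Prime)).card : ℝ) ≤
      2 * (N * (Real.exp (r * (2 * C1 + σ)) *
      (Real.log L / Real.log y) ^ r)) + √(N : ℝ) + r * (2 * y + 1) := by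
  set S := (Ioc L y).filter Nat.Prime with hS
  set E := Exc F S with hE
  have hES : E ⊆ S := by
    rw [hE]
    unfold Exc
    exact filter_subset _ _
  have hSp : ∀ p ∈ S, p.Prime := fun p hp => (mem_filter.1 hp).2
  have hEc : ∑ p ∈ E, (1 : ℝ) / p ≤ σ := (Exc_sum F S hSp hF hFg).trans hσ
  have hprod := prodP hC0 hC1 r L y hL hrL hLy E hES σ hEc
  -- the number of the classes
  have hnu : ∀ p ∈ S \ E, nu (Qf F) p = r := by
    intro p hp
    obtain ⟨hpS, hpE⟩ := Finset.mem_sdiff.1 hp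
    rw [← hFr]
    apply nu_eq F (hSp p hpS)
    · intro f hf hd
      exact hpE (by rw [hE]; unfold Exc; exact mem_filter.2 ⟨hpS, Or.inl ⟨f, hf, hd⟩⟩)
    · intro f hf g hg hne hd
      exact hpE (by rw [hE]; unfold Exc; exact mem_filter.2 ⟨hpS, Or.inr ⟨f, hf, g, hg, hne, hd⟩⟩)
  have key := hup y N hy3 hyK (Qf F) (Qf_per F) (S \ E) (by
    intro p hp
    obtain ⟨hpS, hpE⟩ := Finset.mem_sdiff.1 hp
    have h1 := mem_Ioc.1 (mem_filter.1 hpS).1
    exact ⟨hSp p hpS, by omega, h1.2, (hnu p hp).le⟩)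
  have hprod' : ∏ p ∈ S \ E, (1 - (nu (Qf F) p : ℝ) / p) = ∏ p ∈ S \ E, (1 - (r : ℝ) / p) := by
    apply prod_congr rfl
    intro p hp
    rw [hnu p hp]
  rw [hprod'] at key
  have hsub : (Icc 1 N).filter (fun n : ℕ => ∀ f ∈ F, (f.1 * (n : ℤ) + f.2).toNat.Prime) ⊆
      (Icc 1 N).filter (fun n : ℕ => ∀ p ∈ S \ E, ¬ Qf F p n) ∪
      F.biUnion (fun f => (Icc 1 N).filter (fun n : ℕ => |f.1 * (n : ℤ) + f.2| ≤ y)) := by
    intro n hn
    rw [mem_filter] at hn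
    rw [mem_union, mem_biUnion]
    by_cases h : ∃ f ∈ F, |f.1 * (n : ℤ) + f.2| ≤ y
    · obtain ⟨f, hf, h⟩ := h
      exact Or.inr ⟨f, hf, mem_filter.2 ⟨hn.1, h⟩⟩
    · push Not at h
      refine Or.inl (mem_filter.2 ⟨hn.1, ?_⟩)
      rintro p hp ⟨f, hf, hd⟩
      obtain ⟨hpS, hpE⟩ := Finset.mem_sdiff.1 hp
      have h1 := mem_Ioc.1 (mem_filter.1 hpS).1
      have h2 := hn.2 f hf
      have h3 := h f hf
      have h4 : 0 < f.1 * (n : ℤ) + f.2 := by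
        by_contra hcon
        push Not at hcon
        rw [Int.toNat_of_nonpos hcon] at h2
        exact Nat.not_prime_zero h2
      have h5 : ((f.1 * (n : ℤ) + f.2).toNat : ℤ) = f.1 * (n : ℤ) + f.2 := Int.toNat_of_nonneg h4.le
      rw [← h5] at hd
      have h6 := (Nat.prime_dvd_prime_iff_eq (hSp p hpS) h2).1 (by exact_mod_cast hd)
      rw [abs_of_pos h4] at h3
      omega
  have hcard : (((Icc 1 N).filter (fun n : ℕ => ∀ f ∈ F, (f.1 * (n : ℤ) + f.2).toNat.Prime)).card : ℝ) ≤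
      (((Icc 1 N).filter (fun n : ℕ => ∀ p ∈ S \ E, ¬ Qf F p n)).card : ℝ) +
        ∑ f ∈ F, ((((Icc 1 N).filter (fun n : ℕ => |f.1 * (n : ℤ) + f.2| ≤ y)).card : ℕ) : ℝ) := by
    have h1 := (card_le_card hsub).trans (card_union_le _ _)
    have h2 := h1.trans (add_le_add le_rfl card_biUnion_le)
    exact_mod_cast h2
  have hsum : ∑ f ∈ F, ((((Icc 1 N).filter (fun n : ℕ => |f.1 * (n : ℤ) + f.2| ≤ y)).card : ℕ) : ℝ) ≤
      r * (2 * y + 1) := by
    refine (sum_le_sum (fun f hf => small_card f.1 f.2 (hF f hf) N y)).trans ?_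
    rw [sum_const, hFr, nsmul_eq_mul]
  have hfin : 2 * ((N : ℝ) * ∏ p ∈ S \ E, (1 - (r : ℝ) / p)) ≤
      2 * (N * (Real.exp (r * (2 * C1 + σ)) * (Real.log L / Real.log y) ^ r)) := by
    gcongr
  linarith

theorem floor_pow' {κ : ℝ} (hκ : 0 < κ) (y₀ : ℕ) : ∀ᶠ X : ℕ in atTop,
    y₀ ≤ ⌊(X : ℝ) ^ κ⌋₊ ∧ κ / 2 * Real.log X ≤ Real.log (⌊(X : ℝ) ^ κ⌋₊ : ℕ) := by
  have tN : Tendsto (fun N : ℕ => (N : ℝ)) atTop atTop := tendsto_natCast_atTop_atTop
  have t1 : Tendsto (fun N : ℕ => (N : ℝ) ^ (κ / 2)) atTop atTop :=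
    (tendsto_rpow_atTop (by positivity)).comp tN
  filter_upwards [t1.eventually_ge_atTop (max 2 (y₀ : ℝ)), eventually_ge_atTop 1] with X h1 hX1
  have hX0 : (0 : ℝ) < X := by exact_mod_cast hX1
  set u : ℝ := (X : ℝ) ^ (κ / 2) with hu
  have hu2 : 2 ≤ u := (le_max_left _ _).trans h1
  have huy : (y₀ : ℝ) ≤ u := (le_max_right _ _).trans h1
  have e : (X : ℝ) ^ κ = u * u := by
    rw [hu, ← Real.rpow_add hX0]; congr 1; ring
  have h3 : u ≤ (⌊(X : ℝ) ^ κ⌋₊ : ℝ) := by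
    have := Nat.lt_floor_add_one ((X : ℝ) ^ κ)
    rw [e] at this ⊢
    nlinarith
  refine ⟨?_, ?_⟩
  · exact_mod_cast huy.trans h3
  · calc κ / 2 * Real.log X = Real.log u := by rw [hu, Real.log_rpow hX0]
      _ ≤ _ := Real.log_le_log (by linarith) h3

/-- **the upper bound sieve with the exact order of magnitude** -/
theorem t_SV : P_SV := by
  intro r
  obtain ⟨K, z0, hK, hup⟩ := up_sieve r
  obtain ⟨C1, hC0, hC1⟩ := mertens_ratio
  have hK0 : (1 : ℝ) ≤ K := by exact_mod_cast hK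
  set κ : ℝ := 1 / (2 * K) with hκ
  have hκ0 : 0 < κ := by positivity
  set L : ℕ := z0 + 2 * r + 2 with hLdef
  have hL2 : 2 ≤ L := by omega
  have hLr : (2 : ℝ) ≤ L := by exact_mod_cast hL2
  have hlogL : 0 ≤ Real.log L := Real.log_natCast_nonneg L
  set B : ℝ := 2 * Real.exp (r * (2 * C1)) * (8 * K * Real.log L) ^ r with hB
  have hB0 : 0 ≤ B := by positivity
  have e4 : ∀ᶠ Y : ℝ in atTop, (1 + 3 * (r : ℝ)) * Real.log Y ^ r ≤ √Y := by
    have h1 : (fun x : ℝ => Real.log x ^ r) =o[atTop] (fun x : ℝ => x ^ (1 / 2 : ℝ)) := by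
      have := isLittleO_log_rpow_rpow_atTop (r : ℝ) (show (0 : ℝ) < 1 / 2 by norm_num)
      simpa [Real.rpow_natCast] using this
    have h2 := (h1.bound (show (0 : ℝ) < 1 / (1 + 3 * (r : ℝ)) by positivity))
    filter_upwards [h2, eventually_ge_atTop 1] with X hX hX1
    have hlog : 0 ≤ Real.log X := Real.log_nonneg hX1
    rw [Real.norm_of_nonneg (by positivity), Real.norm_of_nonneg (by positivity),
      ← Real.sqrt_eq_rpow] at hX
    calc (1 + 3 * (r : ℝ)) * Real.log X ^ r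
        ≤ (1 + 3 * (r : ℝ)) * (1 / (1 + 3 * (r : ℝ)) * √X) := by gcongr
      _ = √X := by field_simp
  have tfl : Tendsto (fun Y : ℝ => ⌊Y⌋₊) atTop atTop := tendsto_nat_floor_atTop
  refine ⟨r + 1 + B, by have := Nat.cast_nonneg (α := ℝ) r; linarith, ?_⟩
  filter_upwards [e4, tfl.eventually (floor_pow' hκ0 (max 3 L)), eventually_ge_atTop 4]
    with Y g4 g5 g6 F hFr hF hFg
  set N : ℕ := ⌊Y⌋₊ with hN
  have hNY : (N : ℝ) ≤ Y := Nat.floor_le (by linarith)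
  have hNY1 : Y < N + 1 := Nat.lt_floor_add_one Y
  have hN3 : (3 : ℝ) < N := by linarith
  have hlogY : 0 < Real.log Y := Real.log_pos (by linarith)
  have hlogN : Real.log Y / 2 ≤ Real.log N := by
    have h1 : Y ≤ (N : ℝ) ^ 2 := by nlinarith
    have h2 := Real.log_le_log (by linarith) h1
    rw [Real.log_pow] at h2
    push_cast at h2
    linarith
  set y : ℕ := ⌊(N : ℝ) ^ κ⌋₊ with hy
  have hyN : (y : ℝ) ≤ (N : ℝ) ^ κ := Nat.floor_le (by positivity)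
  have hy3 : 3 ≤ y := (le_max_left _ _).trans g5.1
  have hLy : L ≤ y := (le_max_right _ _).trans g5.1
  have hysq : (y : ℝ) ^ K ≤ √(N : ℝ) := by
    calc ((y : ℝ)) ^ K ≤ ((N : ℝ) ^ κ) ^ K := pow_le_pow_left₀ (Nat.cast_nonneg _) hyN K
      _ = √(N : ℝ) := by
          rw [← Real.rpow_natCast, ← Real.rpow_mul (by linarith), hκ]
          have e : 1 / (2 * (K : ℝ)) * K = 1 / 2 := by field_simp
          rw [e, ← Real.sqrt_eq_rpow]
  have hsq1 : 1 ≤ √(N : ℝ) := by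
    rw [Real.one_le_sqrt]
    linarith
  have hsqN : √(N : ℝ) * √(N : ℝ) = N := Real.mul_self_sqrt (by linarith)
  have hyK : y ^ K ≤ N := by
    have h6 : √(N : ℝ) ≤ N := by nlinarith
    exact_mod_cast hysq.trans h6
  have hysq1 : (y : ℝ) ≤ √(N : ℝ) := by
    refine le_trans ?_ hysq
    exact_mod_cast Nat.le_self_pow (by omega) y
  set σ : ℝ := ∑ f ∈ F, sg f.1.natAbs + ∑ f ∈ F, ∑ g ∈ F, sg (f.1 * g.2 - g.1 * f.2).natAbs with hσ
  have hσ0 : 0 ≤ σ := add_nonneg (sum_nonneg fun f _ => sg_nonneg _)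
    (sum_nonneg fun f _ => sum_nonneg fun g _ => sg_nonneg _)
  have key := step K z0 r hup hC0 hC1 N L y F hF hFg hFr hL2 (by omega) (by omega) hLy hy3 hyK σ
    le_rfl
  -- the ratio of the logarithms
  have hlogy : Real.log Y / (8 * K) ≤ Real.log y := by
    refine le_trans ?_ g5.2
    have e : Real.log Y / (8 * K) = κ / 2 * (Real.log Y / 2) := by
      rw [hκ]
      field_simp
      ring
    rw [e]
    gcongr
  have hYK : 0 < Real.log Y / (8 * K) := by positivity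
  have ht : Real.log L / Real.log y ≤ 8 * K * Real.log L / Real.log Y := by
    calc Real.log L / Real.log y ≤ Real.log L / (Real.log Y / (8 * K)) :=
          div_le_div_of_nonneg_left hlogL hYK hlogy
      _ = _ := by field_simp
  have ht0 : 0 ≤ Real.log L / Real.log y := div_nonneg hlogL (hYK.le.trans hlogy)
  have htr : (Real.log L / Real.log y) ^ r ≤ (8 * K * Real.log L) ^ r / Real.log Y ^ r := by
    rw [← div_pow]
    exact pow_le_pow_left₀ ht0 ht r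
  have hY0 : (0 : ℝ) ≤ Y / Real.log Y ^ r := by positivity
  have k1 : 2 * ((N : ℝ) * (Real.exp (r * (2 * C1 + σ)) * (Real.log L / Real.log y) ^ r)) ≤
      B * Real.exp (r * σ) * (Y / Real.log Y ^ r) := by
    calc 2 * ((N : ℝ) * (Real.exp (r * (2 * C1 + σ)) * (Real.log L / Real.log y) ^ r))
        ≤ 2 * (Y * (Real.exp (r * (2 * C1 + σ)) * ((8 * K * Real.log L) ^ r / Real.log Y ^ r))) := by
          gcongr
      _ = B * Real.exp (r * σ) * (Y / Real.log Y ^ r) := by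
          rw [mul_add, Real.exp_add, hB]
          ring
  have k2 : √(N : ℝ) + r * (2 * y + 1) ≤ Y / Real.log Y ^ r := by
    have h1 : √(N : ℝ) + r * (2 * y + 1) ≤ (1 + 3 * (r : ℝ)) * √(N : ℝ) := by
      have hr0 : (0 : ℝ) ≤ r := Nat.cast_nonneg r
      have h2 : (r : ℝ) * (2 * y + 1) ≤ r * (3 * √(N : ℝ)) := by
        apply mul_le_mul_of_nonneg_left _ hr0
        linarith
      linarith
    have h3 : √(N : ℝ) ≤ √Y := Real.sqrt_le_sqrt hNY
    have h4 : √Y * √Y = Y := Real.mul_self_sqrt (by linarith)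
    rw [le_div_iff₀ (by positivity)]
    calc (√(N : ℝ) + r * (2 * y + 1)) * Real.log Y ^ r
        ≤ ((1 + 3 * (r : ℝ)) * √(N : ℝ)) * Real.log Y ^ r := by gcongr
      _ = √(N : ℝ) * ((1 + 3 * (r : ℝ)) * Real.log Y ^ r) := by ring
      _ ≤ √Y * √Y := by gcongr
      _ = Y := h4
  have hr0 : (0 : ℝ) ≤ r := Nat.cast_nonneg r
  have hE1 : Real.exp (r * σ) ≤ Real.exp ((r + 1 + B) * σ) := by
    apply Real.exp_le_exp.2
    nlinarith
  have hE2 : (1 : ℝ) ≤ Real.exp ((r + 1 + B) * σ) := by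
    rw [← Real.exp_zero]
    apply Real.exp_le_exp.2
    positivity
  have k3 : B * Real.exp (r * σ) * (Y / Real.log Y ^ r) ≤
      B * Real.exp ((r + 1 + B) * σ) * (Y / Real.log Y ^ r) := by gcongr
  have k4 : Y / Real.log Y ^ r ≤ (r + 1) * Real.exp ((r + 1 + B) * σ) * (Y / Real.log Y ^ r) := by
    have h1 : (1 : ℝ) ≤ (r + 1) * Real.exp ((r + 1 + B) * σ) := by nlinarith
    nlinarith
  calc (((Icc 1 N).filter (fun n : ℕ => ∀ f ∈ F, (f.1 * (n : ℤ) + f.2).toNat.Prime)).card : ℝ)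
      ≤ 2 * (N * (Real.exp (r * (2 * C1 + σ)) *
      (Real.log L / Real.log y) ^ r)) + √(N : ℝ) + r * (2 * y + 1) := by convert key
    _ ≤ (r + 1 + B) * Real.exp ((r + 1 + B) * σ) * (Y / Real.log Y ^ r) := by
        nlinarith

end Pool.Agent.Y949.DK
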